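import Mathlib
import Pool.Agent.H.MP_3d7de8_lc.Defs
import Pool.Agent.Lib.helper21.Local

set_option autoImplicit false

open FirstOrder FirstOrder.Language Filter Pool.Agent.Lib.helper21.Local
open Pool.Agent.H.MP_3d7de8_lc MonoidAlgebra

namespace Pool.Agent.H.MP_c05c30_lc

/-- The function symbol of the language of semigroups. -/
inductive SgFunc : ℕ → Type
  | mul : SgFunc 2

/-- The language of semigroups. -/
def sgLang : FirstOrder.Language.{0, 0} := ⟨SgFunc, fun _ => Empty⟩

instance sgStructure (S : Type) [Mul S] : sgLang.Structure S where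
  funMap := fun f v =>
    match f, v with
    | SgFunc.mul, v => v 0 * v 1
  RelMap := fun r _ => Empty.elim r

/-- logical homogeneity of a semigroup -/
def SgHomogeneous (S : Type) [Mul S] : Prop :=
  ∀ (m : ℕ) (a b : Fin m → S), (∀ φ : sgLang.Formula (Fin m), φ.Realize a ↔ φ.Realize b) →
    ∃ σ : S ≃* S, ∀ j, σ (a j) = b j

/-- logical homogeneity of a field in the language of rings -/
def FieldHomogeneous (P : Type) [Field P] : Prop :=
  letI := (FirstOrder.Ring.compatibleRingOfRing P).toStructure
  ∀ (m : ℕ) (a b : Fin m → P),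
    (∀ φ : FirstOrder.Language.ring.Formula (Fin m), φ.Realize a ↔ φ.Realize b) →
    ∃ σ : P ≃+* P, ∀ j, σ (a j) = b j

inductive S (Y : Type) : Type
  | z | f1 | f2 | x (n : ℕ) | y (j : Y)

variable {Y Y' : Type}

instance : Semigroup (S Y) where
  mul a b := match a, b with
    | .f1, b => b
    | .f2, .f1 => .f2
    | .f2, .f2 => .f2
    | .f2, .y j => .y j
    | _, _ => .z
  mul_assoc a b c := by cases a <;> cases b <;> cases c <;> rfl

def kind : S Y → ℕ
  | .z => 0 | .f1 => 1 | .f2 => 2 | .x _ => 3 | .y _ => 4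

theorem mul_eq (a b : S Y) : a * b = if kind a = 1 then b else
    if kind a = 2 ∧ (kind b = 1 ∨ kind b = 2) then .f2 else
    if kind a = 2 ∧ kind b = 4 then b else .z := by
  cases a <;> cases b <;> rfl

def homOf (f : S Y → S Y') (h : ∀ a, kind (f a) = kind a) : S Y →ₙ* S Y' where
  toFun := f
  map_mul' a b := by
    have h0 : f .z = .z := by have := h .z; cases h' : f .z <;> simp_all [kind]
    have h2 : f .f2 = .f2 := by have := h .f2; cases h' : f .f2 <;> simp_all [kind]
    have ha := h a
    have hb := h b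
    rw [mul_eq a b, mul_eq (f a) (f b), ha, hb]
    split_ifs
    · rfl
    · exact h2
    · rfl
    · exact h0

theorem perm_tuple {α : Type} (k : α → ℕ) (m : ℕ) (a b : Fin m → α) (h1 : ∀ i, k (a i) = k (b i))
    (h2 : ∀ i j, a i = a j ↔ b i = b j) :
    ∃ π : Equiv.Perm α, (∀ s, k (π s) = k s) ∧ ∀ i, π (a i) = b i := by
  classical
  induction m with
  | zero => exact ⟨1, fun _ => rfl, fun i => i.elim0⟩
  | succ m ih =>
    obtain ⟨π, h3, h4⟩ := ih (fun i => a i.succ) (fun i => b i.succ) (fun i => h1 _)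
      (fun i j => h2 _ _)
    refine ⟨Equiv.swap (π (a 0)) (b 0) * π, fun s => ?_, fun i => ?_⟩
    · rw [Equiv.Perm.mul_apply, ← h3 s, Equiv.swap_apply_def]
      split_ifs with h h'
      · rw [h, h3, h1]
      · rw [h', h3, h1]
      · rfl
    · refine Fin.cases (by simp) (fun i => ?_) i
      rw [Equiv.Perm.mul_apply, h4]
      by_cases h : a 0 = a i.succ
      · rw [h, h4, (h2 _ _).1 h]; simp
      · exact Equiv.swap_apply_of_ne_of_ne (fun e => h (π.injective ((h4 i).trans e)).symm)
          (fun e => h ((h2 _ _).2 e.symm))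

def tm {α : Type} (s t : sgLang.Term α) : sgLang.Term α := Term.func SgFunc.mul ![s, t]

@[simp] theorem r_tm {α M : Type} [Mul M] (v : α → M) (s t : sgLang.Term α) :
    (tm s t).realize v = s.realize v * t.realize v := rfl

theorem sg_homog : SgHomogeneous (S Y) := by
  intro m a b h
  have hA : ∀ i, a i * a i = a i ↔ b i * b i = b i := fun i => by
    simpa using h (Term.equal (tm (.var i) (.var i)) (.var i))
  have hB : ∀ i, (∀ w, a i * w = a i) ↔ ∀ w, b i * w = b i := fun i => by
    simpa [Formula.Realize, Fin.snoc] using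
      h (BoundedFormula.all (Term.bdEqual (tm (.var (.inl i)) (.var (.inr 0))) (.var (.inl i))))
  have hC : ∀ i, (∀ w, a i * w = w) ↔ ∀ w, b i * w = w := fun i => by
    simpa [Formula.Realize, Fin.snoc] using
      h (BoundedFormula.all (Term.bdEqual (tm (.var (.inl i)) (.var (.inr 0))) (.var (.inr 0))))
  have hD : ∀ i, (∀ e w, e * a i = a i → e * w = w) ↔ ∀ e w, e * b i = b i → e * w = w :=
    fun i => by
    simpa [Formula.Realize, Fin.snoc] using
      h (BoundedFormula.all (BoundedFormula.all
        ((Term.bdEqual (tm (.var (.inr 0)) (.var (.inl i))) (.var (.inl i))).imp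
        (Term.bdEqual (tm (.var (.inr 0)) (.var (.inr 1))) (.var (.inr 1))))))
  have kA : ∀ s : S Y, s * s = s ↔ kind s < 3 := fun s => by
    cases s <;> simp [kind] <;> first | rfl | exact fun h => nomatch h
  have kB : ∀ s : S Y, (∀ w, s * w = s) ↔ kind s = 0 := fun s => by
    cases s <;> simp only [kind, iff_true, iff_false, reduceCtorEq, OfNat.ofNat_ne_zero,
      one_ne_zero] <;> first | exact fun w => rfl | exact fun h => nomatch h .z
  have kC : ∀ s : S Y, (∀ w, s * w = w) ↔ kind s = 1 := fun s => by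
    cases s <;> simp only [kind, iff_true, iff_false, reduceCtorEq, OfNat.ofNat_ne_one,
      zero_ne_one] <;> first | exact fun w => rfl | exact fun h => nomatch h .f1
  have kD : ∀ s : S Y, (∀ e w, e * s = s → e * w = w) ↔ kind s = 1 ∨ kind s = 3 := fun s => by
    cases s <;> simp only [kind] <;> norm_num
    · exact ⟨.z, rfl, .f1, fun h => nomatch h⟩
    · intro e w h; cases e <;> first | rfl | exact nomatch h
    · exact ⟨.f2, rfl, .f1, fun h => nomatch h⟩
    · intro e w h; cases e <;> first | rfl | exact nomatch h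
    · exact ⟨.f2, rfl, .f1, fun h => nomatch h⟩
  have hk : ∀ s : S Y, kind s ≤ 4 := fun s => by cases s <;> simp [kind]
  obtain ⟨π, h1, h2⟩ := perm_tuple kind m a b (fun i => by
    have := hA i; have := hB i; have := hC i; have := hD i
    have := hk (a i); have := hk (b i)
    simp only [kA, kB, kC, kD] at *
    omega) (fun i j => by simpa using h (Term.equal (.var i) (.var j)))
  exact ⟨⟨π, (homOf π h1).map_mul⟩, h2⟩

theorem field_homog : FieldHomogeneous (ZMod 2) := by
  intro m a b h
  letI := FirstOrder.Ring.compatibleRingOfRing (ZMod 2)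
  refine ⟨RingEquiv.refl _, fun j => ?_⟩
  have : a j = 0 ↔ b j = 0 := by simpa using h (Term.equal (.var j) 0)
  show a j = b j
  revert this
  generalize a j = u
  generalize b j = v
  revert u v
  decide

instance {K : Type} : (algLang K).IsAlgebraic := fun _ => inferInstanceAs (IsEmpty Empty)

section
variable {K A B : Type} [Field K] [NonUnitalRing A] [Module K A] [NonUnitalRing B] [Module K B]

theorem hom_fun (σ : A →ₙₐ[K] B) {n : ℕ} (g : (algLang K).Functions n) (v : Fin n → A) :
    σ (Structure.funMap g v) = Structure.funMap g (σ ∘ v) := by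
  cases g with
  | zero => exact map_zero σ
  | neg => exact map_neg σ _
  | smul c => exact map_smul σ c _
  | add => exact map_add σ _ _
  | mul => exact map_mul σ _ _

theorem iso_real (σ : A →ₙₐ[K] B) (hσ : Function.Bijective σ) {α : Type} {n : ℕ}
    (φ : (algLang K).BoundedFormula α n) (v : α → A) (xs : Fin n → A) :
    φ.Realize (σ ∘ v) (σ ∘ xs) ↔ φ.Realize v xs :=
  (form_ev (fun _ => σ) (fun _ => hσ) (fun _ g => Eventually.of_forall fun _ => hom_fun σ g)
    φ).exists.choose_spec v xs

end

def emb (ι : ℕ → Y) : S ℕ → S Y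
  | .z => .z | .f1 => .f1 | .f2 => .f2 | .x n => .x n | .y n => .y (ι n)

theorem kind_emb (ι : ℕ → Y) (a : S ℕ) : kind (emb ι a) = kind a := by cases a <;> rfl

theorem emb_inj {ι : ℕ → Y} (h : Function.Injective ι) : Function.Injective (emb ι) := by
  intro a b e
  cases a <;> cases b <;> simp only [emb, reduceCtorEq, S.x.injEq, S.y.injEq] at e <;>
    first | rfl | rw [e] | rw [h e]

theorem move {ι : ℕ → Y} (h : Function.Injective ι) (T0 T1 : Finset (S Y))
    (h0 : ∀ t ∈ T0, t ∈ Set.range (emb ι)) : ∃ π : Equiv.Perm (S Y), (∀ s, kind (π s) = kind s) ∧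
    (∀ t ∈ T0, π t = t) ∧ ∀ t ∈ T1, π t ∈ Set.range (emb ι) := by
  classical
  induction T1 using Finset.induction_on with
  | empty => exact ⟨1, fun _ => rfl, fun _ _ => rfl, by simp⟩
  | insert t T1 _ ih =>
    obtain ⟨π, h1, h2, h3⟩ := ih
    by_cases ht : π t ∈ Set.range (emb ι)
    · exact ⟨π, h1, h2, Finset.forall_mem_insert _ _ _ |>.2 ⟨ht, h3⟩⟩
    · have hy : kind (π t) = 4 := by
        cases hc : π t with
        | z => exact absurd ⟨.z, hc.symm⟩ ht
        | f1 => exact absurd ⟨.f1, hc.symm⟩ ht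
        | f2 => exact absurd ⟨.f2, hc.symm⟩ ht
        | x n => exact absurd ⟨.x n, hc.symm⟩ ht
        | y j => rfl
      obtain ⟨_, ⟨n, rfl⟩, hn⟩ := (Set.infinite_range_of_injective
        (f := fun n => (S.y (ι n) : S Y)) (fun a b e => h (S.y.inj e))).exists_notMem_finset
        (T0 ∪ T1.image π)
      simp only [Finset.mem_union, Finset.mem_image, not_or, not_exists, not_and] at hn
      refine ⟨Equiv.swap (π t) (.y (ι n)) * π, fun s => ?_, fun s hs => ?_, fun s hs => ?_⟩
      · rw [Equiv.Perm.mul_apply, ← h1 s, Equiv.swap_apply_def]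
        split_ifs with e e'
        · rw [e, hy]; rfl
        · rw [e', hy]; rfl
        · rfl
      · rw [Equiv.Perm.mul_apply, h2 s hs]
        exact Equiv.swap_apply_of_ne_of_ne (fun e => ht (e ▸ h0 s hs)) (fun e => hn.1 (e ▸ hs))
      · rw [Equiv.Perm.mul_apply]
        rcases Finset.mem_insert.1 hs with rfl | hs
        · exact ⟨.y n, by simp [emb]⟩
        · rw [Equiv.swap_apply_of_ne_of_ne (fun e : π s = π t => ht (e ▸ h3 s hs)) (hn.2 s hs)]
          exact h3 s hs

abbrev F2 : Type := ZMod 2

noncomputable def FF (ι : ℕ → Y) : F2[S ℕ] →ₙₐ[F2] F2[S Y] :=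
  mapDomainNonUnitalAlgHom F2 F2 (homOf (emb ι) (kind_emb ι))

theorem elem {ι : ℕ → Y} (h : Function.Injective ι) {n : ℕ} (φ : (algLang F2).Formula (Fin n))
    (x : Fin n → F2[S ℕ]) : φ.Realize (FF ι ∘ x) ↔ φ.Realize x := by
  classical
  let f : (algLang F2).Embedding F2[S ℕ] F2[S Y] :=
    { toFun := FF ι
      inj' := mapDomain_injective (emb_inj h)
      map_fun' := fun g v => hom_fun _ g v
      map_rel' := fun r => r.elim }
  refine f.isElementary_of_exists (fun n φ x a H => ?_) φ x
  obtain ⟨π, h1, h2, h3⟩ := move h (Finset.univ.biUnion fun i => (FF ι (x i)).coeff.support)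
    a.coeff.support (fun t ht => by
      obtain ⟨i, -, hi⟩ := Finset.mem_biUnion.1 ht
      obtain ⟨s, -, hs⟩ := Finset.mem_image.1 (Finsupp.mapDomain_support hi)
      exact ⟨s, hs⟩)
  let Θ : F2[S Y] →ₙₐ[F2] F2[S Y] := mapDomainNonUnitalAlgHom F2 F2 (homOf π h1)
  have hΘ : Function.Bijective Θ := (mapDomainAddEquiv F2 π).bijective
  have h4 : ∀ i, Θ (FF ι (x i)) = FF ι (x i) := fun i => by
    apply coeff_injective
    refine (Finsupp.mapDomain_congr (g := id) fun t ht => h2 t ?_).trans Finsupp.mapDomain_id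
    exact Finset.mem_biUnion.2 ⟨i, Finset.mem_univ _, ht⟩
  have h5 : ((Θ a).coeff.support : Set (S Y)) ⊆ Set.range (emb ι) := fun t ht => by
    obtain ⟨s, hs, rfl⟩ := Finset.mem_image.1 (Finsupp.mapDomain_support ht)
    exact h3 s hs
  refine ⟨comapDomain (emb ι) (emb_inj h) (Θ a), ?_⟩
  have h6 : f (comapDomain (emb ι) (emb_inj h) (Θ a)) = Θ a := mapDomain_comapDomain h5 _
  have := (iso_real Θ hΘ φ _ _).2 H
  rw [Fin.comp_snoc, show Θ ∘ (f ∘ x) = f ∘ x from funext h4] at this
  rw [h6]
  exact Eq.mp (congrArg (fun v => φ.Realize v _) (Subsingleton.elim _ _)) this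

noncomputable def bb (Y : Type) : F2[S Y] := single .f1 1 - single .f2 1 + single .z 1

noncomputable def sw : S ℕ →ₙ* F2[S ℕ] where
  toFun
    | .z => single .z 1 | .f1 => single .f1 1 | .f2 => bb ℕ
    | .x n => single (.y n) 1 | .y n => single (.x n) 1
  map_mul' a b := by
    cases a <;> cases b <;>
      simp only [bb, mul_add, add_mul, mul_sub, sub_mul, single_mul_single, mul_one] <;>
      first | rfl | (show _ = (_ : F2[S ℕ]); simp only [HMul.hMul, Mul.mul]; abel)

theorem same_type {ι : ℕ → Y} (h : Function.Injective ι) (φ : (algLang F2).Formula (Fin 1)) :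
    φ.Realize (fun _ => (single .f2 1 : F2[S Y])) ↔ φ.Realize (fun _ => bb Y) := by
  let Ξ : F2[S ℕ] →ₙₐ[F2] F2[S ℕ] := liftMagma F2 sw
  have hs : ∀ s, Ξ (single s 1) = sw s := fun s => by simp [Ξ]
  have h2 : Ξ.comp Ξ = NonUnitalAlgHom.id F2 _ := nonUnitalAlgHom_ext F2 fun s => by
    rw [NonUnitalAlgHom.comp_apply, hs]
    cases s with
    | f2 =>
      show Ξ (bb ℕ) = single .f2 1
      rw [bb, map_add, map_sub, hs, hs, hs]
      show single S.f1 1 - bb ℕ + single S.z 1 = _
      rw [bb]; abel
    | _ => exact hs _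
  have h3 : Function.Involutive Ξ := fun u => DFunLike.congr_fun h2 u
  have e1 := elem h φ (fun _ => single .f2 1)
  have e2 := elem h φ (fun _ => bb ℕ)
  have e3 := iso_real Ξ h3.bijective φ (fun _ => single .f2 1) Fin.elim0
  have e4 : FF ι ∘ (fun _ : Fin 1 => single S.f2 1) = fun _ => single S.f2 1 :=
    funext fun _ => mapDomain_single
  have e5 : FF ι ∘ (fun _ : Fin 1 => bb ℕ) = fun _ => bb Y := funext fun _ => by
    show FF ι (bb ℕ) = _
    rw [bb, map_add, map_sub]
    exact congrArg₂ _ (congrArg₂ _ mapDomain_single mapDomain_single) mapDomain_single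
  rw [← e4, ← e5, e1, e2]
  have e6 : Ξ ∘ (fun _ : Fin 1 => single S.f2 1) = fun _ => bb ℕ := funext fun _ => hs _
  rw [e6] at e3
  unfold Formula.Realize
  exact (iff_of_eq (congrArg _ (Subsingleton.elim _ _))).trans
    (e3.symm.trans (iff_of_eq (congrArg _ (Subsingleton.elim _ _))))

instance : Countable (S ℕ) :=
  Function.Injective.countable (f := fun s : S ℕ => match s with
    | .z => ((0 : ℕ), (0 : ℕ)) | .f1 => (1, 0) | .f2 => (2, 0) | .x n => (3, n) | .y n => (4, n))
    (fun a b e => by cases a <;> cases b <;> simp_all)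

theorem not_homog [Uncountable Y] : ¬ LogHomogeneous F2 F2[S Y] := by
  intro H
  let ι := Infinite.natEmbedding Y
  obtain ⟨σ, h1, h2⟩ := H 1 _ _ (same_type ι.injective)
  have h3 : ∀ u, ∃ v, FF ι v = bb Y * u := by
    intro u
    have hb : FF ι (bb ℕ) = bb Y := by
      rw [bb, map_add, map_sub]
      exact congrArg₂ _ (congrArg₂ _ mapDomain_single mapDomain_single) mapDomain_single
    induction u using induction_linear with
    | zero => exact ⟨0, by simp⟩
    | add u v hu hv =>
      obtain ⟨u', hu⟩ := hu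
      obtain ⟨v', hv⟩ := hv
      exact ⟨u' + v', by rw [map_add, hu, hv, mul_add]⟩
    | single s c =>
      have key : ∀ t, emb ι t = s → ∃ v, FF ι v = bb Y * single s c := fun t ht =>
        ⟨bb ℕ * single t c, by rw [map_mul, hb, ← ht]; exact congrArg _ mapDomain_single⟩
      cases s with
      | z => exact key .z rfl
      | f1 => exact key .f1 rfl
      | f2 => exact key .f2 rfl
      | x n => exact key (.x n) rfl
      | y j =>
        refine ⟨single .z c, mapDomain_single.trans ?_⟩
        simp only [bb, add_mul, sub_mul, single_mul_single, one_mul]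
        show single S.z c = single (S.y j) c - single (S.y j) c + single S.z c
        simp
  choose g hg using fun j : Y => h3 (σ (single (.y j) 1))
  have : Countable F2[S ℕ] := coeff_injective.countable
  refine not_countable (Function.Injective.countable (f := g) fun i j e => ?_)
  have h4 : ∀ j, FF ι (g j) = σ (single (.y j) 1) := fun j => by
    rw [hg, ← h2 0, ← map_mul, single_mul_single, mul_one]; rfl
  have h5 := h1.1 ((h4 i).symm.trans ((congrArg _ e).trans (h4 j)))
  exact S.y.inj (single_left_injective one_ne_zero h5)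

end Pool.Agent.H.MP_c05c30_lc
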